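import Pool.Agent.Lib.MP_3ee548_nt.RS.Iface

set_option autoImplicit false

open scoped BigOperators
open Classical

namespace Pool.Agent.Lib.MP_3ee548_nt.RS.H30

open Pool.Agent.Lib.MP_3ee548_nt.RS

theorem e_add' (x y : ℝ) : e (x + y) = e x * e y := by
  unfold e
  rw [← Complex.exp_add]
  congr 1
  push_cast
  ring

theorem qpos2 (h : Pos2Statement) : Qpos2Statement := by
  obtain ⟨C, hC, h2⟩ := h
  refine ⟨C, hC, ?_⟩
  intro lam c D T hT hc
  have key := h2 (ℕ × ℕ) (fun p => lam p.1 + lam p.2) (fun p => c p.1 * c p.2) (D ×ˢ D) T hT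
    (by
      intro p hp
      rw [Finset.mem_product] at hp
      rw [norm_mul]
      have h1 := hc _ hp.1
      have h3 := hc _ hp.2
      have := norm_nonneg (c p.1)
      have := norm_nonneg (c p.2)
      nlinarith)
  have heq : ∀ t : ℝ, ‖∑ i ∈ D, c i * e (t * lam i)‖ ^ 4
      = ‖∑ p ∈ D ×ˢ D, (c p.1 * c p.2) * e (t * (lam p.1 + lam p.2))‖ ^ 2 := by
    intro t
    have h1 : ∑ p ∈ D ×ˢ D, (c p.1 * c p.2) * e (t * (lam p.1 + lam p.2))
        = (∑ i ∈ D, c i * e (t * lam i)) ^ 2 := by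
      rw [sq, Finset.sum_mul_sum, Finset.sum_product]
      refine Finset.sum_congr rfl fun i _ => Finset.sum_congr rfl fun j _ => ?_
      rw [mul_add, e_add']
      ring
    rw [h1, norm_pow, ← pow_mul]
  simp only [heq]
  exact key

end Pool.Agent.Lib.MP_3ee548_nt.RS.H30
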